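import Pool.Agent.U901.FX

/-!
# Bloch's conjecture for all combinations of automorphisms of products of Fermat hypersurfaces

Let `X = X_1 × ⋯ × X_K` be a product of Fermat hypersurfaces over `ℂ` of arbitrary dimensions
`n_k ≥ 1` and the same degree `m`, with `3 ≤ m ≤ 2 n_k + 1` for all `k`; for instance Calabi-Yau
hypersurfaces (`m = n_k + 2`) or hypersurfaces of general type (`m > n_k + 2`). Let `a = ∑ a_g g` be an
integral combination of automorphisms `g` of `X`, which are composed of linear automorphisms of the
factors and permutations of the factors. The holomorphic forms on `X` are the direct sum, over all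
sets `S` of factors, of the forms of type `S`, the exterior products of forms of top degree on the
factors in `S`.

**Theorem.** Let `z` be a zero-cycle on `X` such that for every set `S` of factors (including the
empty set) the pullback `a^* = ∑ a_g g^*` of holomorphic forms has no component of type `S`, or the
push-forward of `z` to the product `X_S` of the factors in `S` is zero in `CH_0(X_S) ⊗ ℚ`. Then
`a_* z = 0` in `CH_0(X) ⊗ ℚ`.

Special cases. (1) If `a^* = 0` on the holomorphic forms of positive degree then `a_* = 0` on the
zero-cycles of degree zero (`S = ∅`: `z` has degree zero). For `a = ∑_{g ∈ G} g`, where `G` is a finite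
group of such automorphisms, this is the generalized Bloch conjecture for `c = 1` and the (smooth
models of the) quotients `Y = X / G`: if `H^0(Y, Ω^p) = 0` for all `p > 0` then `A_0^{hom}(Y) = 0`.
(2) If `a^* = 0` on the forms of type `{1, ..., K}` only then `a_* (z_1 × ⋯ × z_K) = 0` for all
zero-cycles `z_k` of degree zero on the factors. (3) For the powers of `Y = X / G` one gets
statements like the conjecture of Voisin on exterior products of zero-cycles.

The numerical heart of the proof is in the library of the starting files (`Pool/Agent/T2H37/PR`:
additive functions on zero-cycles are decomposed by the characters of the group of diagonal matrices,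
the theorem of Savchev and Chen on zero-sum sequences of index one is used for each factor, and the
characters of the factors are shown to have the same index multiplier); there the cases (1) and (2)
are proved (`mainU`, `mainT`) and not handed in. The decomposition of `a` by the types, the transfer to
the push-forwards `z ↦ z_S` and the compatibility of rational equivalence with automorphisms are new.

`Pts`: the points of `X`. `RatEquivZero`: the group of the zero-cycles rationally equivalent to zero
(rational curves in the symmetric powers of `X`, given by Chow forms in the Segre embedding). `PAut`:
the automorphisms. `KillsInto a S`: the pullback by `a` has no component of type `S`. `keep o S`: the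
projection to `X_S`, followed by the embedding of `X_S` in `X` by the coordinates of the point `o`; a
zero-cycle on `X_S` is torsion in `CH_0(X_S)` if and only if its image under the embedding is torsion
in `CH_0(X)`.
-/

set_option autoImplicit false

namespace Pool.Agent.Results.MP_13bc1c_ag.AutomorphismsOfProducts

open Pool.Agent.T2H37.PR Pool.Agent.T2H37.FK Pool.Agent.U901.FX

/-- If for every set `S` of factors the pullback of holomorphic forms by the combination `a` of
automorphisms has no component of type `S` or the push-forward of the zero-cycle `z` to the product of
the factors in `S` is torsion, then `a_* z` is torsion modulo rational equivalence. -/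
theorem result (K : ℕ) (n : Fin K → ℕ) (m : ℕ) (hm : 3 ≤ m) (hmn : ∀ k, m ≤ 2 * n k + 1)
    (a : PAut ℂ (fun k => n k + 2) m →₀ ℤ) (z : Pts ℂ (fun k => n k + 2) m →₀ ℤ)
    (o : Pts ℂ (fun k => n k + 2) m)
    (h : ∀ S : Finset (Fin K), KillsInto a S ∨
      ∃ j : ℕ, 0 < j ∧ j • z.mapDomain (keep o S) ∈
        Pool.Agent.T2H37.PR.RatEquivZero ℂ (fun k => n k + 2) m) :
    ∃ j : ℕ, 0 < j ∧ j • (a.sum fun g c => c • z.mapDomain g.act) ∈
      Pool.Agent.T2H37.PR.RatEquivZero ℂ (fun k => n k + 2) m :=
  mainG hm (fun k => by have := hmn k; omega) a z o h

end Pool.Agent.Results.MP_13bc1c_ag.AutomorphismsOfProducts
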