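import Pool.Agent.U840.BL.Bloch

/-!
# Bloch's conjecture (`c = 1`) for abelian and double covers of symmetric products, in all dimensions

Two families of varieties `Y` of arbitrary dimension; in both families the hypothesis of the conjecture
for `c = 1` (`h^{i,0}(Y) = 0` for all `i > 0`) is a sharp numerical condition, and the conclusion
(`A_0^{hom}(Y) = 0`) is proved whenever it holds, without any other assumption.

Let `X` be the Fermat hypersurface of degree `m` and dimension `n ≥ 1`.

**A.** Let `1 ≤ k ≤ n + 1`. The group of the diagonal matrices which act on the last `k` coordinates by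
`m`-th roots of unity acts on `X`, with a rational quotient `P` (for `k = 1` it is `ℙ^n`, and `X → ℙ^n` is
the cyclic cover of degree `m` branched along the Fermat hypersurface). Let `Y` be a smooth projective
model of the quotient of `X ^ r` by the tuples of such matrices with product one and the permutations of
the factors: a cover of `Sym^r P` with group `(ℤ/m)^k`; for `k = 1` it is the cyclic cover of degree `m`
of `Sym^r ℙ^n` given by the equation `y^m = f(x_1) ⋯ f(x_r)`. For `n` odd `H^{i,0}(Y) = 0` for
`0 < i < n r`, and `H^{n r,0}(Y)` is the sum of the exterior powers `Λ^r` of the eigenspaces of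
`H^{n,0}(X)`; the largest one has dimension `C(m - 1 - k, n + 1 - k)`. So the hypothesis of the
conjecture is `r > C(m - 1 - k, n + 1 - k)`. (For `n` even the theorem is about the cycles that are
changed by the sign of the permutation.)

**B.** Let `n` be odd or even, and let `X' → P` be the double cover of the weighted projective space
`P = ℙ(1, …, 1, m₀, 2 m₀, …, 2^(s-1) m₀)` (with `N₀` weights one, `n = N₀ + s - 1`) branched along the
hypersurface of degree `m = 2^(s+1) m₀` given by the sum of the powers of the coordinates; for `s = 0`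
it is the double cover of `ℙ^n` branched along the Fermat hypersurface of degree `2 m₀`. It is a
quotient of the Fermat hypersurface of degree `m`, and `p_g(X') = C(m₀ - 1, N₀ - 1)`. Let `Y` be a
smooth projective model of the double cover of `Sym^r P` which is the quotient of `X' ^ r` by the tuples
of covering involutions and permutations of the factors with (product of the signs of the involutions)
`= sgn^(n+1)`. Here `H^{i,0}(Y) = 0` for `0 < i < n r` and `H^{n r,0}(Y) = Λ^r H^{n,0}(X')`. So the
hypothesis of the conjecture is `r > C(m₀ - 1, N₀ - 1)`.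

**Theorem.** In both cases, if the hypothesis holds, then every zero-cycle of degree zero on `X ^ r` that
is invariant under the group is torsion in `CH_0(X ^ r)`; so `A_0^{hom}(Y) = 0`.

There is no bound on the degree `m` (the results for all correspondences on products of Fermat
hypersurfaces have the bound `m ≤ 2 n + 1`). Proof: the components of an additive function on zero-cycles
for the characters of the group of diagonal matrices; by the library of the starting files
(`Pool/Agent/T2H37/PR`) the component of `(α 1, …, α r)` is zero if a proper set of coordinates of some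
`α j` has the sum zero or if two of the `α j` can be cut in three blocks with opposite sums, and the
exchange of two factors with the same `α` acts by `(-1)^n`. The partial sums of the `α j` and a counting
argument (after folding modulo `m / 2`, …, `m / 2^(s+1)` in case B) give two `α j` which are equal or
opposite.
-/

set_option autoImplicit false

namespace Pool.Agent.Results.MP_13bc1c_ag.CoversOfSymmetricProducts

open Pool.Agent.T2H37.PR Pool.Agent.U840.BL

/-- The automorphisms in case A: tuples `ζ` of diagonal matrices whose entries are `m`-th roots of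
unity, equal to one outside the last `k` coordinates, with the product one. -/
def GroupA (n m k r : ℕ) (ζ : Fin r → Fin (n + 2) → ℂ) : Prop :=
  (∀ j i, ζ j i ^ m = 1) ∧ (∀ j i, (i : Fin (n + 2)).val < n + 2 - k → ζ j i = 1) ∧
    ∀ i, ∏ j, ζ j i = 1

/-- The automorphisms in case B, with `m = 2 ^ (s + 1) * m₀`: a permutation `σ` of the factors and a
tuple `ζ` of diagonal matrices whose entries are `m`-th roots of unity, equal to one at the first `N₀`
coordinates, roots of unity of order dividing `2 ^ i * m₀` at the coordinate `N₀ + i` for `i < s`, and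
such that the product of the last entries has the `m / 2`-th power `(sgn σ) ^ (N₀ + s)`. -/
def GroupB (N₀ m₀ s r : ℕ) (ζ : Fin r → Fin (N₀ + s + 1) → ℂ) (σ : Equiv.Perm (Fin r)) : Prop :=
  (∀ j i, ζ j i ^ (2 * (2 ^ s * m₀)) = 1) ∧
    (∀ j i, (i : Fin (N₀ + s + 1)).val < N₀ → ζ j i = 1) ∧
    (∀ j i, N₀ ≤ (i : Fin (N₀ + s + 1)).val → i.val < N₀ + s →
      ζ j i ^ (2 ^ (i.val - N₀) * m₀) = 1) ∧
    (∏ j, ζ j (Fin.last (N₀ + s))) ^ (2 ^ s * m₀) = (((Equiv.Perm.sign σ : ℤ) ^ (N₀ + s) : ℤ) : ℂ)

/-- Bloch's conjecture for abelian covers (A) and double covers (B) of symmetric products. -/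
theorem result :
    (∀ n m k r : ℕ, 0 < m → 1 ≤ k → k ≤ n + 1 → (m - 1 - k).choose (n + 1 - k) < r →
      ∀ z : Pts ℂ (fun _ : Fin r => n + 2) m →₀ ℤ, (z.sum fun _ c => c) = 0 →
      (∀ ζ σ, GroupA n m k r ζ → ∀ x y, Moved ζ σ x y →
        z y = (Equiv.Perm.sign σ : ℤ) ^ (n + 1) * z x) →
      ∃ j : ℕ, 0 < j ∧ j • z ∈ RatEquivZero ℂ (fun _ : Fin r => n + 2) m) ∧
    (∀ N₀ m₀ s r : ℕ, 1 ≤ N₀ → 0 < m₀ → (m₀ - 1).choose (N₀ - 1) < r →
      ∀ z : Pts ℂ (fun _ : Fin r => N₀ + s + 1) (2 * (2 ^ s * m₀)) →₀ ℤ,
      (z.sum fun _ c => c) = 0 →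
      (∀ ζ σ, GroupB N₀ m₀ s r ζ σ → ∀ x y, Moved ζ σ x y → z y = z x) →
      ∃ j : ℕ, 0 < j ∧
        j • z ∈ RatEquivZero ℂ (fun _ : Fin r => N₀ + s + 1) (2 * (2 ^ s * m₀))) := by
  refine ⟨?_, ?_⟩
  · intro n m k r hm hk1 hk hr z hz hinv
    have : NeZero m := ⟨hm.ne'⟩
    refine blochA (N := n + 2) (by omega) hk1 (by omega) (by
      have h1 : n + 2 - 1 - k = n + 1 - k := by omega
      rw [h1]
      exact hr) z hz fun ζ σ h1 h2 h3 x y hxy => ?_
    rw [hinv ζ σ ⟨h1, h2, h3⟩ x y hxy]
    have h4 : ((Equiv.Perm.sign σ : ℤˣ) : ℤ) ^ (n + 2 + 1) =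
        ((Equiv.Perm.sign σ : ℤˣ) : ℤ) ^ (n + 1) := by
      have h5 : ((Equiv.Perm.sign σ : ℤˣ) : ℤ) ^ 2 = 1 := by
        rw [← Units.val_pow_eq_pow_val, Int.units_sq, Units.val_one]
      rw [show n + 2 + 1 = (n + 1) + 2 by ring, pow_add, h5, mul_one]
    rw [h4]
  · intro N₀ m₀ s r hN₀ hm₀ hr z hz hinv
    have : NeZero (2 * (2 ^ s * m₀)) := ⟨by positivity⟩
    exact blochB rfl rfl hN₀ hm₀ hr z hz fun ζ σ h1 h2 h3 h4 x y hxy =>
      hinv ζ σ ⟨h1, h2, h3, h4⟩ x y hxy

end Pool.Agent.Results.MP_13bc1c_ag.CoversOfSymmetricProducts
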