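import Pool.Agent.U191.EY.Final

/-!
# The generalized Bloch conjecture for group quotients of products of curves

Let `C_1, …, C_n` be smooth projective curves (any number of them, of any genera), with actions of
finite groups `G_1, …, G_n` by automorphisms, and suppose that all irreducible characters of all
`G_i` have values in one and the same field `ℚ(√-e)` (`ℚ` if `e = 0`). For instance the `G_i` may
be any groups with rational characters (symmetric groups, Weyl groups, elementary abelian
`2`-groups, the quaternion group, …), or any abelian groups of exponent dividing `4`, or any abelian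
groups of exponent dividing `6`, or `SL_2(𝔽_3)`, …. Let `B` be a variety with `A_i^{hom}(B) = 0`
for all `i < c` (for instance a point, or a projective space), and let
`X = C_1 × ⋯ × C_n × B`, with the action of `G = G_1 × ⋯ × G_n`.

**Theorem.**

(1) Let `a = ∑ a(γ) γ` be any element of the rational group algebra `ℚ[G]`. If `a_* = 0` on
`H^{p,q}(X)` for all `p ≠ q` with `min (p, q) < c`, then `a_* = 0` on `A_i^{hom}(X)` for all `i < c`.
(This is Q1 for all direct summands of the motive of `X` which are cut out by `ℚ[G]`.)

(2) Let `Y` be a variety of Hodge coniveau `≥ c`, with `dim Y = dim X`, which is a direct summand of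
`X` cut out by an element of `ℚ[G]`: there are correspondences `α`, `β` of degree zero between `X`
and `Y` with `β_* α_* = a_*` and `α_* β_* = 1` on cycles of dimension less than `c`. Then
`A_i^{hom}(Y) = 0` for all `i < c`, that is, `Y` satisfies Q1. (The hypothesis on `α`, `β` is only
about homologically trivial cycles of dimension `< c` and about `H^{p,q}` with `min (p, q) < c`; for
`c = 1` it holds for every resolution of singularities `Y` of a quotient of `X` by a subgroup
of `G`.)

(3) In particular, let `S` be any subgroup of `G` and let `f : X ⟶ Y` be the quotient by `S`, with `Y`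
smooth. If `Y` has Hodge coniveau `≥ c` then `A_i^{hom}(Y) = 0` for all `i < c`. (What is used of
the quotient is `f_* f^* = |S|` and `f^* f_* = ∑_{γ ∈ S} γ_*`; that `S` is a subgroup is not used.)

## The proof

The group algebra is split by the products `χ = χ_1 ⊗ ⋯ ⊗ χ_n` of irreducible characters of the
`G_i`; `χ + χ̄` is rational, because the values are in an imaginary quadratic field. For each factor,
the `χ_i`-isotypic part `H^1(C_i)_{χ_i}` has types `(1,0)`, `(0,1)`, both or none (`PosA`, `PosB`).
Either the isotypic part of `H^*(X)` belonging to `χ` has a nonzero class of type `(p, q)`, `p ≠ q`,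
`min (p, q) < c`, and then `χ a = 0` in the group algebra (`coef_zero`). Or it has not; then a
combinatorial argument (`good_of_types`) shows that there are `c` disjoint pairs `{i, i'}` of factors
such that `H^1(C_i)_{χ_i}` is purely of type `(1,0)` and `H^1(C_{i'})_{χ_{i'}}` is purely of type
`(0,1)`, or that all the parts are of this form and there is nothing else. For such a pair the sum of
the isotypic parts of `H^1(C_i) ⊗ H^1(C_{i'})` belonging to `χ_i ⊗ χ_{i'}` and to the conjugate
character is rational and purely of type `(1,1)`, so it is spanned by divisor classes on
`C_i × C_{i'}` (Lefschetz), and one obtains a correspondence of degree zero which is the identity on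
the isotypic parts of `H^*(X)` and which acts on the Chow groups through products with `c`
divisors and push-forward to the product of the remaining factors, so it kills the homologically
trivial cycles of dimension less than `c` (`GoodS`, `good_pair`, `block`). The difference between
this correspondence and the projector is homologically trivial, hence nilpotent by Kimura's theorem
(`kill_of_good`).

## What is assumed

The formal properties of the Chow groups with rational coefficients (`IsChowProj`), of the
cohomology with complex coefficients (`IsWeilProj`), of the Hodge decomposition, including the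
theorem of Lefschetz on `(1,1)`-classes (`IsHodge`), and the nilpotence of homologically trivial
self-correspondences of `X` (`Nilpotence`; a theorem of Kimura for products of curves and of
varieties with finite-dimensional motives).
-/

set_option autoImplicit false

universe u v

namespace Pool.Agent.Results.MP_13bc1c_ag.ProductsOfCurves

open CategoryTheory AlgebraicGeometry Pool.Agent.H914 Pool.Agent.H914.VarClass
  Pool.Agent.H914.VarClass.Obj Pool.Agent.W492.BB Pool.Agent.W550.Corr Pool.Agent.TH133
open Pool.Agent.W484.CK (Nilpotence)
open Pool.Agent.U191.EY

/-- **The generalized Bloch conjecture** for the summands of products of curves which are cut out by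
finite groups with characters in a quadratic field. -/
theorem result {k : Type u} [Field k] {𝒱 : VarClass k} (C : TheoryData.{u, v, 0} 𝒱 ℚ)
    (H : WeilTheoryData.{u, v, 0} C ℂ) (hC : IsChowProj C) (hH : IsWeilProj H)
    (D : ∀ V : 𝒱.Obj, HodgeRing (H.A V)) (hD : IsHodge H D) (e : ℕ) (L : List (GCurve 𝒱))
    (hact : ∀ s ∈ L, s.IsAction) (hchar : ∀ s ∈ L, HasCharactersIn e s.G)
    (B : 𝒱.Obj) (c : ℕ) (hB : NoHomTrivial H B c) (hN : Nilpotence H (prodL B L)) :
    (∀ a : Grp L → ℚ, (D (prodL B L)).Agree c (cohOp H B L a) 0 →
      AgreeOnCycles H (prodL B L) c (chowOp C B L a) 0) ∧
    (∀ (a : Grp L → ℚ) (Y : 𝒱.Obj) (α : C.A ((prodL B L).prod Y)) (β : C.A (Y.prod (prodL B L))),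
      IsSummand D B L a c Y α β → (D Y).HasConiveau c → NoHomTrivial H Y c) ∧
    ∀ (S : Set (Grp L)) (Y : 𝒱.Obj) (f : prodL B L ⟶ Y),
      IsQuotient H B L S Y f → (D Y).HasConiveau c → NoHomTrivial H Y c :=
  ⟨fun a ha => element hD L hact hchar hN hB a ha,
    fun _ _ _ _ hY hc => summand hD L hact hchar hN hB hY hc,
    fun _ _ _ hY hc => quotient hD L hact hchar hN hB hY hc⟩

end Pool.Agent.Results.MP_13bc1c_ag.ProductsOfCurves
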