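import Pool.Agent.U840.BL.SymPow2

/-!
# Bloch's conjecture (`c = 1`) for quotients of powers of weighted Fermat Calabi-Yau varieties

Let `w = (w 0, …, w (N-1))` be weights dividing `m = ∑ w i` and let `X_w : ∑ y_i ^ (m / w i) = 0` be the
weighted Fermat hypersurface of degree `m` in `ℙ(w)`, of dimension `n = N - 2`. It is the quotient of the
Fermat hypersurface `X` of degree `m` in `ℙ^(n+1)` by the group `G_w` of the diagonal matrices whose
`i`-th entries are `w i`-th roots of unity (`y_i = x_i ^ (w i)`). Its smooth models have `h^{n,0} = 1` and
`h^{j,0} = 0` for `0 < j < n`; the holomorphic `n`-form is the residue `ω_w`. For exponents `a` with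
`w i ∣ a i` and `m ∣ ∑ a i` the residue `ω_a` with the monomial `x ^ (a - 1)` (of pole order
`(∑ a i) / m`) is an eigenform of all diagonal matrices in the cohomology of `X_w`. We call `a`
irreducible (`IrrExp`) if no sum over a proper nonempty set of coordinates is divisible by `m`.

Let `Γ` be a group of automorphisms of `X_w ^ k` given by tuples of diagonal matrices `ζ` whose entries
are `m`-th roots of unity and permutations `σ` of the factors, and let `Y` be a smooth projective model of
`X_w ^ k / Γ`, of dimension `k n`. The element `(ζ, σ)` maps the form `∏_{j ∈ S} ω_a(x_j)`, for a set of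
factors `S` with `σ S = S`, to its multiple by `sgn(σ | S) ^ n * ∏_{j ∈ S} ∏_i ζ j i ^ a i`. The hypothesis
`h^{i,0}(Y) = 0` for all `i > 0` of the conjecture for `c = 1` says: for `a = w` and every nonempty `S`
this factor is not one for some element of `Γ`. The condition `NoInvariant` is this for all irreducible
`a` instead of `a = w`. (For the Fermat hypersurface of degree `n + 2` in `ℙ^(n+1)` the irreducible `a`
are the multiples of `w = (1, …, 1)` modulo `m` by units, and the two conditions are the same; in the
other cases it is a condition on some classes of other Hodge types, too.)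

**Theorem.** Let `w` be one of the following weights (`GoodWeights`):

* in every dimension `n ≥ 1` and for every `2 ≤ N₀ ≤ n + 2` the weights
  `(1, …, 1, N₀, 2 N₀, 4 N₀, …, 2^(s-1) N₀)` with `N₀` weights one and `s = n + 2 - N₀`, `m = 2^s N₀`. For
  `s = 0` this is the Fermat hypersurface of degree `n + 2` in `ℙ^(n+1)`; for `s = 1` the double cover of
  `ℙ^n` branched along the Fermat hypersurface of degree `2 n + 2`; for `s > 1` towers of double covers;
* the 23 weights of Calabi-Yau threefolds in the list `cy3List`.

1. Let `k ≥ 0` and let `Γ` satisfy `NoInvariant`. Then every zero-cycle of degree zero on `X ^ k` that is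
   invariant under `G_w ^ k` and `Γ` is torsion in `CH_0(X ^ k)`; so `A_0^{hom}(Y) = 0`.
2. Let `n` be odd, `k ≥ 0` and let `i₀` be any coordinate. Then every zero-cycle of degree zero on `X ^ k`
   that is invariant under `G_w ^ k`, all permutations of the factors and the multiplications of the
   coordinates `x_{i₀}` on all factors by the same `m`-th root of unity, is torsion in `CH_0(X ^ k)`. So
   `A_0^{hom}(Y) = 0` for the quotient `Y` of the symmetric power `Sym^k(X_w)` by the group of the cyclic
   covering `X_w → ℙ(w without w i₀)`: for instance for the quotients of `Sym^k(X_w)` by the covering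
   involution, if `X_w` is a double cover, for all `k`.

Earlier results (`AutomorphismsOfProducts`) have the bound `m ≤ 2 n + 1`; here `m = 2^s N₀` is not bounded in
terms of `n` by a polynomial. `CoversOfSymmetricProducts` is about the quotients by the larger groups of
all tuples of covering transformations with product one.

Proof: by the starting files (`Pool/Agent/T2H37/PR`) the component of an additive function on zero-cycles
for a tuple `(α 1, …, α k)` of characters of the group of diagonal matrices vanishes if a proper set of
coordinates of some `α j ≠ 0` has the sum zero, or if two nontrivial `α j` can be cut in three blocks with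
opposite sums. For the good weights two different irreducible characters are always opposite in this
sense (`WeightedFermatTowers`, MP_ef4640_ag), so that all nontrivial `α j` are equal, and permutations of
their factors act on the component by `sgn ^ n`. So an element of `Γ` acts on the component as on the form
`∏_{j ∈ S} ω_a(x_j)`, where `S` is the set of the factors with `α j ≠ 0`.
-/

set_option autoImplicit false

namespace Pool.Agent.Results.MP_13bc1c_ag.QuotientsOfPowers

open Pool.Agent.T2H37.PR Pool.Agent.U840.BL

/-- Bloch's conjecture for quotients of powers of weighted Fermat Calabi-Yau varieties. -/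
theorem result :
    (∀ N m k : ℕ, 3 ≤ N → ∀ w : Fin N → ℕ, GoodWeights N m w →
      ∀ Γ : Set ((Fin k → Fin N → ℂ) × Equiv.Perm (Fin k)), NoInvariant m w Γ →
      ∀ Z : Pts ℂ (fun _ : Fin k => N) m →₀ ℤ, (Z.sum fun _ c => c) = 0 → WtInv w Z →
      (∀ γ ∈ Γ, ∀ x y, Moved γ.1 γ.2 x y → Z y = Z x) →
      ∃ j : ℕ, 0 < j ∧ j • Z ∈ RatEquivZero ℂ (fun _ : Fin k => N) m) ∧
    (∀ N m k : ℕ, 3 ≤ N → Odd N → ∀ w : Fin N → ℕ, GoodWeights N m w → ∀ i₀ : Fin N,
      ∀ Z : Pts ℂ (fun _ : Fin k => N) m →₀ ℤ, (Z.sum fun _ c => c) = 0 → WtInv w Z →
      (∀ (σ : Equiv.Perm (Fin k)) x, Z (fun j => x (σ j)) = Z x) →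
      (∀ ζ : ℂ, ζ ^ m = 1 → ∀ x y,
        Moved (fun _ i => if i = i₀ then ζ else 1) 1 x y → Z y = Z x) →
      ∃ j : ℕ, 0 < j ∧ j • Z ∈ RatEquivZero ℂ (fun _ : Fin k => N) m) :=
  ⟨fun _ _ _ hN _ hw _ hΓ _ h0 hinv hΓZ => powQuotGood hN hw hΓ h0 hinv hΓZ,
    fun _ _ _ hN hodd _ hw i₀ _ h0 hinv hsym hcov =>
      symPowCover hN hodd hw i₀ h0 hinv hsym hcov⟩

end Pool.Agent.Results.MP_13bc1c_ag.QuotientsOfPowers
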